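import Pool.Agent.H84.TI.Stm

set_option autoImplicit false

open Finset

namespace H87.TI

open Pool.Agent.H84.TI

theorem win_eq {M k a c : ℕ} (ha : k ≤ a) (ha' : a < k + M) (hc : k ≤ c) (hc' : c < k + M)
    (h : (a : ZMod M) = (c : ZMod M)) : a = c := by
  rw [ZMod.natCast_eq_natCast_iff] at h
  have h1 := h.dvd
  have h2 : |(c : ℤ) - a| < M := by
    rw [abs_lt]
    constructor <;> omega
  have h3 := Int.eq_zero_of_abs_lt_dvd h1 h2
  omega

theorem goo (hI : S_IND) (hC : S_CAT) : S_GOO := by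
  intro M n _ hM hn B hB t
  classical
  obtain ⟨k, hk⟩ := hM
  have hM0 : M ≠ 0 := NeZero.ne M
  have hk1 : 1 ≤ k := by omega
  have hx0 : M / 2 = k := by omega
  rw [hx0]
  have hn0 : n ≠ 0 := by omega
  have : NeZero n := ⟨hn0⟩
  have hAt : ∀ a, a ∈ At B k t ↔ (k ≤ a ∧ a < k + M) ∧ (a : ZMod M) - t ∈ B := by
    intro a
    unfold At
    rw [mem_filter, mem_Ico]
  set A := At B k t \ Bad B k t with hA
  have hmA : ∀ a ∈ A, a ∈ At B k t := fun a ha => (mem_sdiff.mp ha).1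
  have hA1 : ∀ a ∈ A, 0 < a := by
    intro a ha
    have := (hAt a).1 (hmA a ha)
    omega
  have hA2 : ∀ a ∈ A, 4 * a < n := by
    intro a ha
    have := (hAt a).1 (hmA a ha)
    omega
  have h21 : ∀ a ∈ A, ∀ b ∈ A, ∀ c ∈ A, a + b ≠ c := by
    intro a ha b hb c hc h
    apply (mem_sdiff.mp hc).2
    unfold Bad
    rw [mem_filter]
    exact ⟨hmA c hc, a, hmA a ha, b, hmA b hb, h⟩
  have h31 : ∀ a ∈ A, ∀ b ∈ A, ∀ c ∈ A, ∀ d ∈ A, a + b + c ≠ d := by
    intro a ha b hb c hc d hd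
    have h1 := (hAt a).1 (hmA a ha)
    have h2 := (hAt b).1 (hmA b hb)
    have h3 := (hAt c).1 (hmA c hc)
    have h4 := (hAt d).1 (hmA d hd)
    omega
  have h22 : ∀ a ∈ A, ∀ b ∈ A, ∀ c ∈ A, ∀ d ∈ A, a + b = c + d →
      (a = c ∧ b = d) ∨ (a = d ∧ b = c) := by
    intro a ha b hb c hc d hd h
    have h1 := (hAt a).1 (hmA a ha)
    have h2 := (hAt b).1 (hmA b hb)
    have h3 := (hAt c).1 (hmA c hc)
    have h4 := (hAt d).1 (hmA d hd)
    have h5 : ((a : ZMod M) - t) + ((b : ZMod M) - t) = ((c : ZMod M) - t) + ((d : ZMod M) - t) := by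
      have : (a : ZMod M) + b = c + d := by exact_mod_cast congrArg (Nat.cast : ℕ → ZMod M) h
      linear_combination this
    rcases hB _ h1.2 _ h2.2 _ h3.2 _ h4.2 h5 with ⟨e1, e2⟩ | ⟨e1, e2⟩
    · left
      exact ⟨win_eq h1.1.1 h1.1.2 h3.1.1 h3.1.2 (sub_left_injective e1),
        win_eq h2.1.1 h2.1.2 h4.1.1 h4.1.2 (sub_left_injective e2)⟩
    · right
      exact ⟨win_eq h1.1.1 h1.1.2 h4.1.1 h4.1.2 (sub_left_injective e1),
        win_eq h2.1.1 h2.1.2 h3.1.1 h3.1.2 (sub_left_injective e2)⟩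
  have hind := hI A hA1 hA2 h21 h31 h22
  have hcard : (A.image (Nat.cast : ℕ → ZMod n)).card = A.card := by
    apply card_image_of_injOn
    intro a ha b hb h
    have h1 := hA2 a ha
    have h2 := hA2 b hb
    exact win_eq (k := 0) (Nat.zero_le _) (by omega) (Nat.zero_le _) (by omega) h
  have hle : A.card ≤ tau n 4 := by
    unfold tau
    apply le_csSup
    · refine ⟨Fintype.card (ZMod n), ?_⟩
      rintro m ⟨S, hS, _⟩
      rw [← hS]
      exact card_le_univ S
    · exact ⟨_, hcard, hind⟩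
  have h6 := hC B k t
  have h7 : (At B k t).card ≤ A.card + (Bad B k t).card := by
    rw [hA]
    have h8 : At B k t ⊆ (At B k t \ Bad B k t) ∪ Bad B k t := by
      intro x hx
      rw [mem_union, mem_sdiff]
      by_cases hxb : x ∈ Bad B k t
      · exact Or.inr hxb
      · exact Or.inl ⟨hx, hxb⟩
    exact (card_le_card h8).trans (card_union_le _ _)
  omega

end H87.TI
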